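import Mathlib
import Pool.Agent.H87.CLG.Targets

/-!
# Row MOR: a monomial order
-/

set_option autoImplicit false

open MvPolynomial
open scoped commutatorElement

namespace Pool.Agent.H65.CLG

open Pool.Agent.H87.CLG

universe u v

theorem pf_MOR : T_MOR := by
  intro Λ _
  classical
  obtain ⟨d, ⟨e⟩⟩ := Finite.exists_equiv_fin Λ
  -- the numbering of the variables
  set c : ℕ × Λ → ℕ := fun q => q.1 * d + (e q.2 : ℕ) with hc
  have hcl : ∀ q q' : ℕ × Λ, c q < c q' ↔ q.1 < q'.1 ∨ (q.1 = q'.1 ∧ e q.2 < e q'.2) := by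
    intro q q'
    have h1 := (e q.2).2
    have h2 := (e q'.2).2
    simp only [hc]
    constructor
    · intro h
      rcases lt_trichotomy q.1 q'.1 with h3 | h3 | h3
      · exact Or.inl h3
      · refine Or.inr ⟨h3, ?_⟩
        rw [h3] at h
        exact Fin.lt_def.2 (by omega)
      · exfalso
        have h4 : (q'.1 + 1) * d ≤ q.1 * d := Nat.mul_le_mul_right _ h3
        rw [add_mul, one_mul] at h4
        omega
    · rintro (h3 | ⟨h3, h4⟩)
      · have h4 : (q.1 + 1) * d ≤ q'.1 * d := Nat.mul_le_mul_right _ h3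
        rw [add_mul, one_mul] at h4
        omega
      · rw [h3]
        have := Fin.lt_def.1 h4
        omega
  have hcinj : Function.Injective c := by
    intro q q' h
    by_contra hne
    have h1 : ¬ c q < c q' := by omega
    have h2 : ¬ c q' < c q := by omega
    rw [hcl] at h1 h2
    push Not at h1 h2
    have h3 : q.1 = q'.1 := le_antisymm h2.1 h1.1
    have h4 : e q.2 = e q'.2 := le_antisymm (h2.2 h3.symm) (h1.2 h3)
    exact hne (Prod.ext h3 (e.injective h4))
  have hcσ : ∀ σ : ℕ → ℕ, StrictMono σ → ∀ q q' : ℕ × Λ,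
      c q < c q' → c (Prod.map σ id q) < c (Prod.map σ id q') := by
    intro σ hσ q q' h
    rw [hcl] at h ⊢
    rcases h with h | ⟨h, h'⟩
    · exact Or.inl (hσ h)
    · exact Or.inr ⟨congrArg σ h, h'⟩
  have hcσ' : ∀ σ : ℕ → ℕ, StrictMono σ → ∀ q q' : ℕ × Λ,
      c (Prod.map σ id q) < c (Prod.map σ id q') → c q < c q' := by
    intro σ hσ q q' h
    by_contra hcon
    rcases lt_or_eq_of_le (not_lt.1 hcon) with h1 | h1
    · have := hcσ σ hσ q' q h1
      omega
    · rw [hcinj h1] at h
      omega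
  set g : ℕ × Λ → ℕ × Λ → Prop := fun q q' => c q' < c q with hg
  have : Std.Trichotomous g := ⟨fun q q' h1 h2 => hcinj (by simp only [hg] at h1 h2; omega)⟩
  have hwf : WellFounded (Finsupp.Lex g (fun m n : ℕ => m < n)) := by
    refine Finsupp.Lex.wellFounded' (fun n => Nat.not_lt_zero n) Nat.lt_wfRel.wf ?_
    exact InvImage.wf c Nat.lt_wfRel.wf
  refine ⟨Finsupp.Lex g (fun m n : ℕ => m < n), ?_, ?_, ?_⟩
  · refine { wf := hwf, trichotomous := ?_ }
    intro a b h1 h2
    by_contra hne
    have hD : ∃ q, a q ≠ b q := by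
      by_contra hcon
      push Not at hcon
      exact hne (Finsupp.ext hcon)
    obtain ⟨q0, hq0⟩ := hD
    set D : Finset (ℕ × Λ) := (a.support ∪ b.support).filter fun q => a q ≠ b q with hDdef
    have hmem : ∀ q, q ∈ D ↔ a q ≠ b q := by
      intro q
      rw [hDdef, Finset.mem_filter, Finset.mem_union, Finsupp.mem_support_iff, Finsupp.mem_support_iff]
      refine ⟨fun h => h.2, fun h => ⟨?_, h⟩⟩
      by_contra hcon
      push Not at hcon
      exact h (hcon.1.trans hcon.2.symm)
    obtain ⟨q, hq, hmax⟩ := D.exists_max_image c ⟨q0, (hmem q0).2 hq0⟩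
    have hagree : ∀ j, c q < c j → a j = b j := by
      intro j hj
      by_contra hcon
      have := hmax j ((hmem j).2 hcon)
      omega
    rcases lt_or_gt_of_ne ((hmem q).1 hq) with h | h
    · exact h1 ⟨q, fun j hj => hagree j hj, h⟩
    · exact h2 ⟨q, fun j hj => (hagree j hj).symm, h⟩
  · rintro u v w ⟨q, h1, h2⟩
    refine ⟨q, fun j hj => ?_, ?_⟩
    · have := h1 j hj
      simp only [Finsupp.coe_add, Pi.add_apply]
      rw [this]
    · simp only [Finsupp.coe_add, Pi.add_apply]
      exact Nat.add_lt_add_right h2 _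
  · rintro σ u v hσ ⟨q, h1, h2⟩
    have hinj : Function.Injective (Prod.map σ (id : Λ → Λ)) := hσ.injective.prodMap Function.injective_id
    refine ⟨Prod.map σ id q, fun j hj => ?_, ?_⟩
    · by_cases hj' : j ∈ Set.range (Prod.map σ (id : Λ → Λ))
      · obtain ⟨j0, rfl⟩ := hj'
        unfold shm
        rw [Finsupp.mapDomain_apply hinj, Finsupp.mapDomain_apply hinj]
        exact h1 j0 (hcσ' σ hσ q j0 hj)
      · unfold shm
        rw [Finsupp.mapDomain_of_notMem_range _ _ hj', Finsupp.mapDomain_of_notMem_range _ _ hj']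
    · unfold shm
      rw [Finsupp.mapDomain_apply hinj, Finsupp.mapDomain_apply hinj]
      exact h2

end Pool.Agent.H65.CLG
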